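import Pool.Agent.H8K1.CL.OneSided

/-!
# Finite algebras, intervals in subgroup lattices, and union-closed families
-/

set_option autoImplicit false

namespace Pool.Agent.H8K1.CL

open Pool.Agent.R636.FL

universe u v w

section nonconst

variable {X : Type u} {ι : Type v} {f : ι → X → X}

/-- the nonconstant maps of the family -/
def ncst (f : ι → X → X) : {i : ι // ∃ a b, f i a ≠ f i b} → X → X := fun i => f i.1

/-- constant maps are compatible with everything -/
def ncstIso (f : ι → X → X) : UCon (ncst f) ≃o UCon f where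
  toFun r := UCon.mk r.1 (fun i x y h => by
    by_cases hi : ∃ a b, f i a ≠ f i b
    · exact r.2 ⟨i, hi⟩ x y h
    · push Not at hi
      rw [hi x y])
  invFun r := UCon.mk r.1 (fun i x y h => r.2 i.1 x y h)
  left_inv r := rfl
  right_inv r := rfl
  map_rel_iff' := Iff.rfl

theorem crit_of_not_connected' [Finite X] (h : ∃ x y, ¬ Relation.ReflTransGen
    (fun p q => ∃ i, f i p = q ∧ ∃ p', f i p' ≠ q) x y) : Crit (UCon f) := by
  refine (crit_of_not_connected (f := ncst f) (fun h1 => ?_)).congr (ncstIso f)
  obtain ⟨x, y, hxy⟩ := h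
  apply hxy
  have h2 : Relation.ReflTransGen (fun u v => ∃ i, ncst f i u = v) x y := h1 x y
  refine Relation.ReflTransGen.mono ?_ x y h2
  rintro p q ⟨⟨i, a, b, hab⟩, rfl⟩
  refine ⟨i, rfl, ?_⟩
  by_contra hno
  push Not at hno
  exact hab (by rw [hno a, hno b])

end nonconst

section alg

variable {X : Type u} {ι : Type v} {n : ι → ℕ}

/-- the congruences of the algebra on `X` with the operations `op i` of arity `n i` -/
def AlgCon (op : ∀ i, (Fin (n i) → X) → X) : Type u :=
  {r : Setoid X // ∀ (i : ι) (x y : Fin (n i) → X), (∀ j, r (x j) (y j)) → r (op i x) (op i y)}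

instance (op : ∀ i, (Fin (n i) → X) → X) : PartialOrder (AlgCon op) := Subtype.partialOrder _

/-- basic translations: change one argument of an operation -/
def algTr (op : ∀ i, (Fin (n i) → X) → X) : (Σ i, Fin (n i) × (Fin (n i) → X)) → X → X :=
  fun t u => op t.1 (Function.update t.2.2 t.2.1 u)

theorem algCon_compat (op : ∀ i, (Fin (n i) → X) → X) (r : UCon (algTr op)) (i : ι)
    (x y : Fin (n i) → X) (h : ∀ j, r.1 (x j) (y j)) : r.1 (op i x) (op i y) := by
  have key : ∀ k : ℕ, k ≤ n i → r.1 (op i x) (op i (fun j => if j.1 < k then y j else x j)) := by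
    intro k
    induction k with
    | zero => intro _; simp only [Nat.not_lt_zero, if_false]; exact r.1.refl _
    | succ k ih =>
      intro hk
      refine r.1.trans (ih (by omega)) ?_
      have h1 := r.2 ⟨i, ⟨k, hk⟩, fun j => if j.1 < k then y j else x j⟩ _ _ (h ⟨k, hk⟩)
      have h2 : Function.update (fun j : Fin (n i) => if j.1 < k then y j else x j) ⟨k, hk⟩
          (x ⟨k, hk⟩) = fun j => if j.1 < k then y j else x j := by
        rw [Function.update_eq_self_iff]
        simp
      have h3 : Function.update (fun j : Fin (n i) => if j.1 < k then y j else x j) ⟨k, hk⟩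
          (y ⟨k, hk⟩) = fun j => if j.1 < k + 1 then y j else x j := by
        funext j
        by_cases hj : j = ⟨k, hk⟩
        · subst hj; simp
        · rw [Function.update_of_ne hj]
          have h4 : j.1 ≠ k := fun h => hj (Fin.ext h)
          by_cases h5 : j.1 < k
          · rw [if_pos h5, if_pos (by omega)]
          · rw [if_neg h5, if_neg (by omega)]
      change r.1 (op i _) (op i _) at h1
      simp only at h1
      rw [h2, h3] at h1
      exact h1
  have h6 := key (n i) le_rfl
  have h7 : (fun j : Fin (n i) => if j.1 < n i then y j else x j) = y := by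
    funext j
    rw [if_pos j.2]
  rw [h7] at h6
  exact h6

/-- congruences are the equivalence relations compatible with the basic translations -/
def algIso (op : ∀ i, (Fin (n i) → X) → X) : UCon (algTr op) ≃o AlgCon op where
  toFun r := ⟨r.1, fun i x y h => algCon_compat op r i x y h⟩
  invFun c := UCon.mk c.1 (fun t u v h => c.2 t.1 _ _ (fun j => by
    by_cases hj : j = t.2.1
    · subst hj; simp only [Function.update_self]; exact h
    · simp only [Function.update_of_ne hj]; exact c.1.refl _))
  left_inv r := rfl
  right_inv c := rfl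
  map_rel_iff' := Iff.rfl

end alg

section subgroups

variable {G : Type u} [Group G]

/-- the maps of the cosets -/
def cosetMap (H : Subgroup G) : G → G ⧸ H → G ⧸ H := fun g x => g • x

/-- the subgroups that contain `H` and the invariant equivalence relations on the cosets of `H` -/
def subgroupIso (H : Subgroup G) : UCon (cosetMap H) ≃o Set.Ici H where
  toFun U := ⟨{ carrier := {g | U.1 ((1 : G) : G ⧸ H) (g : G ⧸ H)}
                one_mem' := U.1.refl _
                mul_mem' := by
                  intro a b ha hb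
                  have h1 := U.2 a _ _ hb
                  change U.1 ((a * 1 : G) : G ⧸ H) ((a * b : G) : G ⧸ H) at h1
                  rw [mul_one] at h1
                  exact U.1.trans ha h1
                inv_mem' := by
                  intro a ha
                  have h1 := U.2 a⁻¹ _ _ ha
                  change U.1 ((a⁻¹ * 1 : G) : G ⧸ H) ((a⁻¹ * a : G) : G ⧸ H) at h1
                  rw [mul_one, inv_mul_cancel] at h1
                  exact U.1.symm h1 }, by
    intro h hh
    change U.1 ((1 : G) : G ⧸ H) (h : G ⧸ H)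
    have h1 : ((1 : G) : G ⧸ H) = (h : G ⧸ H) := by
      rw [QuotientGroup.eq]
      simpa using hh
    rw [h1]⟩
  invFun K := UCon.mk ⟨fun x y => ∀ a b : G, (a : G ⧸ H) = x → (b : G ⧸ H) = y → a⁻¹ * b ∈ K.1,
      fun x a b ha hb => by
        apply K.2
        rw [← QuotientGroup.eq, ha, hb],
      fun {x y} h a b ha hb => by
        have := K.1.inv_mem (h b a hb ha)
        simpa using this,
      fun {x y z} h1 h2 a b ha hb => by
        obtain ⟨c, hc⟩ := QuotientGroup.mk_surjective y
        have := K.1.mul_mem (h1 a c ha hc) (h2 c b hc hb)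
        simpa [mul_assoc] using this⟩ (fun g x y h a b ha hb => by
      have h1 : ((g⁻¹ * a : G) : G ⧸ H) = x := by
        change g⁻¹ • ((a : G) : G ⧸ H) = x
        rw [ha]
        exact inv_smul_smul g x
      have h2 : ((g⁻¹ * b : G) : G ⧸ H) = y := by
        change g⁻¹ • ((b : G) : G ⧸ H) = y
        rw [hb]
        exact inv_smul_smul g y
      have h3 := h _ _ h1 h2
      have h4 : (g⁻¹ * a)⁻¹ * (g⁻¹ * b) = a⁻¹ * b := by group
      rw [h4] at h3
      exact h3)
  left_inv U := by
    apply Subtype.ext
    apply Setoid.ext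
    intro x y
    obtain ⟨a, rfl⟩ := QuotientGroup.mk_surjective x
    obtain ⟨b, rfl⟩ := QuotientGroup.mk_surjective y
    have key : ∀ a b : G, U.1 ((1 : G) : G ⧸ H) ((a⁻¹ * b : G) : G ⧸ H) ↔
        U.1 (a : G ⧸ H) (b : G ⧸ H) := by
      intro a b
      constructor
      · intro h
        have h1 := U.2 a _ _ h
        change U.1 ((a * 1 : G) : G ⧸ H) ((a * (a⁻¹ * b) : G) : G ⧸ H) at h1
        rw [mul_one, mul_inv_cancel_left] at h1
        exact h1
      · intro h
        have h1 := U.2 a⁻¹ _ _ h
        change U.1 ((a⁻¹ * a : G) : G ⧸ H) ((a⁻¹ * b : G) : G ⧸ H) at h1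
        rw [inv_mul_cancel] at h1
        exact h1
    constructor
    · intro h
      exact (key a b).1 (h a b rfl rfl)
    · intro h a' b' ha hb
      change U.1 ((1 : G) : G ⧸ H) ((a'⁻¹ * b' : G) : G ⧸ H)
      rw [key, ha, hb]
      exact h
  right_inv K := by
    apply Subtype.ext
    ext g
    constructor
    · intro h
      have := h 1 g rfl rfl
      simpa using this
    · intro hg a b ha hb
      have h1 : a⁻¹ ∈ K.1 := by
        apply K.2
        have := QuotientGroup.eq.1 ha
        simpa using this
      have h2 : g⁻¹ * b ∈ K.1 := by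
        apply K.2
        exact QuotientGroup.eq.1 hb.symm
      have h3 := K.1.mul_mem h1 (K.1.mul_mem hg h2)
      rwa [mul_inv_cancel_left] at h3
  map_rel_iff' := by
    intro U V
    constructor
    · intro h x y hxy
      obtain ⟨a, rfl⟩ := QuotientGroup.mk_surjective x
      obtain ⟨b, rfl⟩ := QuotientGroup.mk_surjective y
      have h1 := U.2 a⁻¹ _ _ hxy
      change U.1 ((a⁻¹ * a : G) : G ⧸ H) ((a⁻¹ * b : G) : G ⧸ H) at h1
      rw [inv_mul_cancel] at h1
      have h2 : V.1 ((1 : G) : G ⧸ H) ((a⁻¹ * b : G) : G ⧸ H) := h h1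
      have h3 := V.2 a _ _ h2
      change V.1 ((a * 1 : G) : G ⧸ H) ((a * (a⁻¹ * b) : G) : G ⧸ H) at h3
      rw [mul_one, mul_inv_cancel_left] at h3
      exact h3
    · intro h g hg
      exact h hg

theorem finite_Ici (H : Subgroup G) [H.FiniteIndex] : Finite (Set.Ici H) :=
  have : Finite (G ⧸ H) := H.finite_quotient_of_finiteIndex
  Finite.of_equiv _ (subgroupIso H).toEquiv

theorem crit_interval (H : Subgroup G) [H.FiniteIndex] {n : ℕ} (hn : H ⊔ derivedSeries G n ≠ ⊤) :
    Crit (Set.Ici H) := by
  have : Finite (G ⧸ H) := H.finite_quotient_of_finiteIndex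
  have hnt : ¬ ∀ x y : G ⧸ H, ∃ g ∈ derivedSeries G n, cosetMap H g x = y := by
    intro h
    apply hn
    rw [eq_top_iff]
    intro g _
    obtain ⟨d, hd, hdg⟩ := h ((1 : G) : G ⧸ H) (g : G ⧸ H)
    have h1 : ((d * 1 : G) : G ⧸ H) = (g : G ⧸ H) := hdg
    rw [mul_one, QuotientGroup.eq] at h1
    have h2 : g = d * (d⁻¹ * g) := (mul_inv_cancel_left _ _).symm
    rw [h2]
    exact mul_mem ((le_sup_right : derivedSeries G n ≤ H ⊔ derivedSeries G n) hd)
      ((le_sup_left : H ≤ H ⊔ derivedSeries G n) h1)
  have hX : Nontrivial (G ⧸ H) := by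
    by_contra hno
    rw [not_nontrivial_iff_subsingleton] at hno
    exact hnt (fun x y => ⟨1, one_mem _, Subsingleton.elim _ _⟩)
  have h1 : Crit (UCon (cosetMap H)) := crit_group (f := cosetMap H) (fun x => one_smul G x)
    (fun g h x => mul_smul g h x) hnt
  exact h1.congr (subgroupIso H)

theorem good_interval [Group.IsSolvable G] (H : Subgroup G) [H.FiniteIndex] : Good (Set.Ici H) := by
  have : Finite (G ⧸ H) := H.finite_quotient_of_finiteIndex
  have h1 : Good (UCon (cosetMap H)) := good_solvable (cosetMap H) (fun x => one_smul G x)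
    (fun g h x => mul_smul g h x)
  exact h1.congr (subgroupIso H)

end subgroups

end Pool.Agent.H8K1.CL
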