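import Pool.Agent.R636.FFam

/-!
# Congruence lattices of unary algebras

A criterion for join-irreducible elements below few elements of a finite lattice, and the lattice of
the equivalence relations on `X` that are compatible with a family of maps `f i : X → X`.
-/

set_option autoImplicit false

namespace Pool.Agent.H8K1.CL

open Pool.Agent.R636.FL

/-- the elements above the join-irreducible element `J` are recovered from their meets with `N` -/
def Crit (L : Type*) [Lattice L] : Prop :=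
  ∃ N J : L, SupIrred J ∧ ¬ J ≤ N ∧ ∀ U, J ≤ U → J ⊔ (U ⊓ N) = U

theorem Crit.congr {L K : Type*} [Lattice L] [Lattice K] (e : L ≃o K) (h : Crit L) : Crit K := by
  obtain ⟨N, J, hJ, hJN, h⟩ := h
  refine ⟨e N, e J, supIrred_map e hJ, fun h1 => hJN (e.le_iff_le.1 h1), fun U hU => ?_⟩
  have h1 := h (e.symm U) (by rw [← e.le_iff_le, e.apply_symm_apply]; exact hU)
  have h2 := congrArg e h1
  rw [e.map_sup, e.map_inf, e.apply_symm_apply] at h2
  exact h2

theorem Crit.weak {L : Type*} [Lattice L] [Finite L] (h : Crit L) : Weak L := by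
  classical
  obtain ⟨N, J, hJ, hJN, h⟩ := h
  refine ⟨J, hJ, ?_⟩
  have h1 : Nat.card {U : L // J ≤ U} ≤ Nat.card {U : L // ¬ J ≤ U} := by
    refine Nat.card_le_card_of_injective
      (fun U => ⟨U.1 ⊓ N, fun h3 => hJN (h3.trans inf_le_right)⟩) ?_
    intro U V hUV
    have h3 := congrArg Subtype.val hUV
    simp only at h3
    apply Subtype.ext
    rw [← h U.1 U.2, h3, h V.1 V.2]
  have h2 : Nat.card {U : L // J ≤ U} + Nat.card {U : L // ¬ J ≤ U} = Nat.card L := by
    rw [← Nat.card_sum]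
    exact Nat.card_congr (Equiv.sumCompl _)
  omega

theorem good_step {L : Type*} [Lattice L] [OrderBot L] [Finite L] {N J : L} (hJ : SupIrred J)
    (hJN : ¬ J ≤ N) (h : ∀ U, J ≤ U → J ⊔ (U ⊓ N) = U) (hI : Good (Set.Ici J)) : Good L := by
  rcases one_crit hJN h with h' | h'
  · refine good_of_split hJN h h' ?_
    have h3 : ∀ V, V ≤ N → (J ⊔ V) ⊓ N = V := fun V hV => ((h' V).resolve_left
      (fun h4 => hJN (h4.trans hV))).2
    let e : Set.Ici J ≃o Set.Iic N :=
      { toFun := fun U => ⟨U.1 ⊓ N, inf_le_right⟩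
        invFun := fun V => ⟨J ⊔ V.1, le_sup_left⟩
        left_inv := fun U => Subtype.ext (h U.1 U.2)
        right_inv := fun V => Subtype.ext (h3 V.1 V.2)
        map_rel_iff' := by
          rintro ⟨U, hU⟩ ⟨V, hV⟩
          simp only [Equiv.coe_fn_mk, Subtype.mk_le_mk]
          refine ⟨fun h4 => ?_, fun h4 => inf_le_inf_right _ h4⟩
          have h5 : U ⊓ N ≤ V ⊓ N := h4
          rw [← h U hU, ← h V hV]
          exact sup_le_sup_left h5 _ }
    exact hI.congr e
  · exact Or.inl ⟨J, hJ, h'⟩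

/-- a join-irreducible element not below an element different from the top -/
theorem exists_supIrred_not_le {L : Type*} [Lattice L] [BoundedOrder L] [Finite L] {N : L}
    (hN : N ≠ ⊤) : ∃ J : L, SupIrred J ∧ ¬ J ≤ N := by
  obtain ⟨J, h1, h2⟩ := exists_minimal_not_le (fun U : L => ¬ U ≤ N)
    ⟨⊤, fun h => hN (top_le_iff.1 h)⟩ (fun h => h bot_le)
    (fun A B hA hB => by
      simp only [not_not] at hA hB ⊢
      exact sup_le hA hB)
  exact ⟨J, h2, h1⟩

section ucon

variable {X ι : Type*}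

/-- the equivalence relations that are compatible with all maps `f i` -/
def UCon (f : ι → X → X) : Type _ := {r : Setoid X // ∀ i x y, r x y → r (f i x) (f i y)}

/-- constructor -/
def UCon.mk {f : ι → X → X} (r : Setoid X) (h : ∀ i x y, r x y → r (f i x) (f i y)) : UCon f :=
  ⟨r, h⟩

variable (f : ι → X → X)

instance : PartialOrder (UCon f) := Subtype.partialOrder _

theorem le_iff {r s : UCon f} : r ≤ s ↔ ∀ x y, r.1 x y → s.1 x y :=
  ⟨fun h _ _ h1 => h h1, fun h _ _ h1 => h _ _ h1⟩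

theorem sInf_rel (S : Set (UCon f)) (x y : X) :
    (sInf (Subtype.val '' S) : Setoid X) x y ↔ ∀ s ∈ S, s.1 x y := by
  constructor
  · intro h s hs
    exact (sInf_le (Set.mem_image_of_mem _ hs) : sInf (Subtype.val '' S) ≤ s.1) h
  · intro h
    rintro _ ⟨s, hs, rfl⟩
    exact h s hs

instance : InfSet (UCon f) where
  sInf S := ⟨sInf (Subtype.val '' S), fun i x y h => by
    rw [sInf_rel] at h ⊢
    exact fun s hs => s.2 i x y (h s hs)⟩

theorem mem_sInf {S : Set (UCon f)} {x y : X} : (sInf S).1 x y ↔ ∀ s ∈ S, s.1 x y :=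
  sInf_rel f S x y

instance : CompleteLattice (UCon f) := completeLatticeOfInf (UCon f) (fun S => by
  constructor
  · intro s hs x y h
    exact (mem_sInf f).1 h s hs
  · intro r hr x y h
    exact (mem_sInf f).2 (fun s hs => hr hs h))

variable {f}

theorem inf_rel {r s : UCon f} {x y : X} : (r ⊓ s).1 x y ↔ r.1 x y ∧ s.1 x y := by
  constructor
  · intro h
    exact ⟨(inf_le_left : r ⊓ s ≤ r) h, (inf_le_right : r ⊓ s ≤ s) h⟩
  · intro h
    have h1 : UCon.mk (r.1 ⊓ s.1) (fun i x y h => ⟨r.2 i x y h.1, s.2 i x y h.2⟩) ≤ r ⊓ s :=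
      le_inf (fun x y h => h.1) (fun x y h => h.2)
    exact h1 h

theorem top_rel (x y : X) : (⊤ : UCon f).1 x y := by
  have h1 : (UCon.mk ⊤ (fun _ _ _ _ => trivial) : UCon f) ≤ ⊤ := le_top
  exact h1 trivial

theorem bot_rel {x y : X} (h : (⊥ : UCon f).1 x y) : x = y := by
  have h1 : (⊥ : UCon f) ≤ UCon.mk ⊥ (fun i x y h => congrArg (f i) h) := bot_le
  exact h1 h

instance [Finite X] : Finite (UCon f) := by
  have : Finite (Setoid X) := Finite.of_injective (fun r : Setoid X => r.r) (fun r s h =>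
    Setoid.ext (fun x y => by
      have := congrFun (congrFun h x) y
      exact iff_of_eq this))
  exact Subtype.finite

/-- elements above `J` are recovered if every pair is `J`-related to a pair in `N` -/
theorem recover {N J U : UCon f} (hU : J ≤ U)
    (h : ∀ x y, U.1 x y → ∃ u v, J.1 x u ∧ J.1 y v ∧ N.1 u v) : J ⊔ (U ⊓ N) = U := by
  refine le_antisymm (sup_le hU inf_le_left) ?_
  intro x y hxy
  obtain ⟨u, v, hxu, hyv, huv⟩ := h x y hxy
  have h1 : U.1 u v := U.1.trans (U.1.symm (hU hxu)) (U.1.trans hxy (hU hyv))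
  have h2 : (U ⊓ N).1 u v := inf_rel.2 ⟨h1, huv⟩
  have h3 : J ≤ J ⊔ (U ⊓ N) := le_sup_left
  have h4 : U ⊓ N ≤ J ⊔ (U ⊓ N) := le_sup_right
  exact (J ⊔ (U ⊓ N)).1.trans (h3 hxu) ((J ⊔ (U ⊓ N)).1.trans (h4 h2)
    ((J ⊔ (U ⊓ N)).1.symm (h3 hyv)))

theorem sup_le_setoid {A B : UCon f} {m : Setoid X} (hA : A.1 ≤ m) (hB : B.1 ≤ m) :
    (A ⊔ B).1 ≤ m := by
  have h1 : ∀ i x y, (A.1 ⊔ B.1) x y → (A.1 ⊔ B.1) (f i x) (f i y) := by
    intro i x y h
    have hA' : A.1 ≤ Setoid.comap (f i) (A.1 ⊔ B.1) := fun x y h =>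
      (le_sup_left : A.1 ≤ A.1 ⊔ B.1) (A.2 i x y h)
    have hB' : B.1 ≤ Setoid.comap (f i) (A.1 ⊔ B.1) := fun x y h =>
      (le_sup_right : B.1 ≤ A.1 ⊔ B.1) (B.2 i x y h)
    exact sup_le hA' hB' h
  have h2 : A ⊔ B ≤ UCon.mk (A.1 ⊔ B.1) h1 :=
    sup_le (fun x y h => (le_sup_left : A.1 ≤ A.1 ⊔ B.1) h)
      (fun x y h => (le_sup_right : B.1 ≤ A.1 ⊔ B.1) h)
  intro x y h
  exact sup_le hA hB (h2 h)

/-- if `m` is an equivalence relation (not necessarily compatible) which does not relate all pairs,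
then some join-irreducible compatible equivalence relation is not contained in `m` -/
theorem exists_supIrred_not_in [Finite X] (m : Setoid X) {x y : X} (hxy : ¬ m x y) :
    ∃ J : UCon f, SupIrred J ∧ ∃ u v, J.1 u v ∧ ¬ m u v := by
  obtain ⟨J, h1, h2⟩ := exists_minimal_not_le (fun U : UCon f => ¬ U.1 ≤ m)
    ⟨⊤, fun h => hxy (h (top_rel x y))⟩
    (fun h => h (fun x y h => by rw [bot_rel h]))
    (fun A B hA hB => by
      simp only [not_not] at hA hB ⊢
      exact sup_le_setoid hA hB)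
  refine ⟨J, h2, ?_⟩
  by_contra h
  push Not at h
  exact h1 (fun u v huv => h u v huv)

/-- the step relation of the maps `f i` -/
def Reach (f : ι → X → X) (x y : X) : Prop := Relation.ReflTransGen (fun u v => ∃ i, f i u = v) x y

theorem reach_map {i : ι} {x y : X} (h : Reach f x y) : Reach f x (f i y) :=
  Relation.ReflTransGen.tail h ⟨i, rfl⟩

/-- if `y` is reached from `x`, a compatible pair `(x, x')` is mapped to a pair `(y, y')`, where `y'`
is reached from `x'` -/
theorem reach_pair {U : UCon f} {x y x' : X} (h : Reach f x y) (hx : U.1 x x') :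
    ∃ y', Reach f x' y' ∧ U.1 y y' := by
  induction h with
  | refl => exact ⟨x', Relation.ReflTransGen.refl, hx⟩
  | tail _ h2 ih =>
    obtain ⟨y', h3, h4⟩ := ih
    obtain ⟨i, rfl⟩ := h2
    exact ⟨f i y', reach_map h3, U.2 i _ _ h4⟩

/-- congruence lattices of unary algebras that are not strongly connected -/
theorem crit_of_not_connected [Finite X] (h : ¬ ∀ x y, Reach f x y) : Crit (UCon f) := by
  classical
  push Not at h
  obtain ⟨p, q, hpq⟩ := h
  have : Nonempty X := ⟨p⟩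
  -- a source component
  obtain ⟨c, hc⟩ : ∃ c, ∀ x, Reach f x c → Reach f c x := by
    obtain ⟨c, hc⟩ := Finite.exists_max (fun c => Nat.card {y // Reach f c y})
    refine ⟨c, fun x hx => ?_⟩
    have h1 : Function.Injective
        (fun y : {y // Reach f c y} => (⟨y.1, hx.trans y.2⟩ : {y // Reach f x y})) := by
      intro y z hyz
      apply Subtype.ext
      exact congrArg (fun w : {y // Reach f x y} => w.1) hyz
    have h2 := (Nat.bijective_iff_injective_and_card _).2
      ⟨h1, le_antisymm (Nat.card_le_card_of_injective _ h1) (hc x)⟩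
    obtain ⟨⟨y, hy⟩, h3⟩ := h2.2 ⟨x, Relation.ReflTransGen.refl⟩
    have h4 : y = x := congrArg Subtype.val h3
    rw [← h4]
    exact hy
  let C : X → Prop := fun x => Reach f c x ∧ Reach f x c
  have hCc : C c := ⟨Relation.ReflTransGen.refl, Relation.ReflTransGen.refl⟩
  have hI : ∀ x y, ¬ C x → Reach f x y → ¬ C y := fun x y hx hxy hy =>
    hx ⟨hc x (hxy.trans hy.2), hxy.trans hy.2⟩
  obtain ⟨z, hz⟩ : ∃ z, ¬ C z := by
    by_contra hno
    push Not at hno
    exact hpq ((hno p).2.trans (hno q).1)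
  let m : Setoid X := ⟨fun x y => (C x ↔ C y), fun _ => Iff.rfl, fun h => h.symm,
    fun h1 h2 => h1.trans h2⟩
  let N : UCon f := UCon.mk ⟨fun x y => x = y ∨ (¬ C x ∧ ¬ C y), fun _ => Or.inl rfl,
    fun h => h.elim (fun h => Or.inl h.symm) (fun h => Or.inr h.symm),
    fun {x y z} h1 h2 => by
      rcases h1 with rfl | h1
      · exact h2
      · rcases h2 with rfl | h2
        · exact Or.inr h1
        · exact Or.inr ⟨h1.1, h2.2⟩⟩ (fun i x y h => by
      rcases h with rfl | h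
      · exact Or.inl rfl
      · exact Or.inr ⟨hI _ _ h.1 (reach_map Relation.ReflTransGen.refl),
          hI _ _ h.2 (reach_map Relation.ReflTransGen.refl)⟩)
  obtain ⟨J, hJ, u, v, huv, hm⟩ := exists_supIrred_not_in (f := f) m (x := c) (y := z)
    (fun h => hz (h.1 hCc))
  obtain ⟨u, v, huv, hu, hv⟩ : ∃ u v, J.1 u v ∧ C u ∧ ¬ C v := by
    by_cases hu : C u
    · exact ⟨u, v, huv, hu, fun hv => hm ⟨fun _ => hv, fun _ => hu⟩⟩
    · by_cases hv : C v
      · exact ⟨v, u, J.1.symm huv, hv, hu⟩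
      · exact absurd ⟨fun h => absurd h hu, fun h => absurd h hv⟩ hm
  have key : ∀ x, ∃ x', J.1 x x' ∧ ¬ C x' := by
    intro x
    by_cases hx : C x
    · obtain ⟨x', h1, h2⟩ := reach_pair (hu.2.trans hx.1) huv
      exact ⟨x', h2, hI _ _ hv h1⟩
    · exact ⟨x, J.1.refl _, hx⟩
  refine ⟨N, J, hJ, fun hJN => ?_, fun U hU => recover hU (fun x y _ => ?_)⟩
  · rcases hJN huv with h1 | h1
    · rw [h1] at hu
      exact hv hu
    · exact h1.1 hu
  · obtain ⟨x', h1, h2⟩ := key x
    obtain ⟨y', h3, h4⟩ := key y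
    exact ⟨x', y', h1, h3, Or.inr ⟨h2, h4⟩⟩

/-- if some maximal compatible equivalence relation permutes with all others -/
theorem crit_of_permute [Finite X] {N : UCon f} (hN : IsCoatom N)
    (h : ∀ (J : UCon f) (x y z : X), N.1 x z → J.1 z y → ∃ w, J.1 x w ∧ N.1 w y) :
    Crit (UCon f) := by
  obtain ⟨J, hJ, hJN⟩ := exists_supIrred_not_le hN.1
  let P : UCon f := UCon.mk ⟨fun x y => ∃ z, J.1 x z ∧ N.1 z y,
    fun x => ⟨x, J.1.refl _, N.1.refl _⟩,
    fun {x y} ⟨z, h1, h2⟩ => by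
      exact h J y x z (N.1.symm h2) (J.1.symm h1),
    fun {x y t} ⟨z, h1, h2⟩ ⟨w, h3, h4⟩ => by
      obtain ⟨w', h5, h6⟩ := h J z w y h2 h3
      exact ⟨w', J.1.trans h1 h5, N.1.trans h6 h4⟩⟩ (fun i x y ⟨z, h1, h2⟩ =>
        ⟨f i z, J.2 i _ _ h1, N.2 i _ _ h2⟩)
  have hJP : J ≤ P := fun x y hxy => ⟨y, hxy, N.1.refl _⟩
  have hNP : N ≤ P := fun x y hxy => ⟨x, J.1.refl _, hxy⟩
  have hP : P = ⊤ := by
    refine hN.2 P (lt_of_le_of_ne hNP (fun h1 => hJN ?_))
    rw [h1]; exact hJP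
  refine ⟨N, J, hJ, hJN, fun U hU => recover hU (fun x y _ => ?_)⟩
  obtain ⟨z, h1, h2⟩ : P.1 x y := by rw [hP]; exact top_rel x y
  exact ⟨z, y, h1, J.1.refl _, h2⟩

end ucon

end Pool.Agent.H8K1.CL
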