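import Pool.Agent.H8K1.CL.Basic

/-!
# Commuting maps and solvable groups of permutations
-/

set_option autoImplicit false

namespace Pool.Agent.H8K1.CL

open Pool.Agent.R636.FL

variable {X ι : Type*} {f : ι → X → X}

/-- the maps induced on the quotient -/
def qmap (J : UCon f) (i : ι) : Quotient J.1 → Quotient J.1 :=
  Quotient.map (f i) (fun x y h => J.2 i x y h)

theorem qmap_mk (J : UCon f) (i : ι) (x : X) :
    qmap J i (Quotient.mk J.1 x) = Quotient.mk J.1 (f i x) := rfl

/-- the correspondence theorem -/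
def corr (J : UCon f) : UCon (qmap J) ≃o Set.Ici J where
  toFun V := ⟨UCon.mk (Setoid.comap (Quotient.mk J.1) V.1) (fun i x y h =>
      V.2 i _ _ h), fun x y h => by
      change V.1 (Quotient.mk J.1 x) (Quotient.mk J.1 y)
      rw [show Quotient.mk J.1 x = Quotient.mk J.1 y from Quotient.sound h]⟩
  invFun U := UCon.mk (Setoid.correspondence J.1 ⟨U.1.1, fun x y h => U.2 h⟩) (fun i p q => by
      refine Quotient.inductionOn₂ p q (fun x y h => ?_)
      exact U.1.2 i x y h)
  left_inv V := by
    apply Subtype.ext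
    apply Setoid.ext
    intro p q
    exact Quotient.inductionOn₂ p q (fun x y => Iff.rfl)
  right_inv U := by
    apply Subtype.ext
    apply Subtype.ext
    apply Setoid.ext
    intro x y
    exact Iff.rfl
  map_rel_iff' := by
    intro V W
    constructor
    · intro h p q
      refine Quotient.inductionOn₂ p q (fun x y hxy => ?_)
      have h1 : (UCon.mk (f := f) (Setoid.comap (Quotient.mk J.1) V.1) (fun i x y h =>
        V.2 i _ _ h)) ≤ UCon.mk (Setoid.comap (Quotient.mk J.1) W.1) (fun i x y h =>
        W.2 i _ _ h) := h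
      exact h1 hxy
    · intro h x y hxy
      exact h hxy

theorem quot_lt [Finite X] (J : UCon f) {x y : X} (h : J.1 x y) (hxy : x ≠ y) :
    Nat.card (Quotient J.1) < Nat.card X := by
  refine lt_of_le_of_ne (Nat.card_le_card_of_surjective _ Quotient.mk_surjective) (fun h1 => ?_)
  have h2 := (Nat.bijective_iff_surjective_and_card (Quotient.mk J.1)).2
    ⟨Quotient.mk_surjective, h1.symm⟩
  exact hxy (h2.1 (Quotient.sound h))

theorem exists_pair_of_supIrred {J : UCon f} (hJ : SupIrred J) : ∃ x y, J.1 x y ∧ x ≠ y := by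
  by_contra h
  push Not at h
  apply hJ.1
  intro b _ x y hxy
  rw [h x y hxy]

/-- nontriviality -/
theorem nontrivial_ucon [Nontrivial X] : Nontrivial (UCon f) := by
  obtain ⟨x, y, hxy⟩ := exists_pair_ne X
  exact ⟨⊥, ⊤, fun h => hxy (bot_rel (f := f) (by rw [h]; exact top_rel x y))⟩

theorem subsingleton_ucon [Subsingleton X] : Subsingleton (UCon f) :=
  ⟨fun a b => Subtype.ext (Setoid.ext (fun x y => by
    rw [Subsingleton.elim x y]
    exact ⟨fun _ => b.1.refl _, fun _ => a.1.refl _⟩))⟩

/-- the inductive step -/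
theorem good_of_crit [Finite X] (h : Crit (UCon f))
    (ih : ∀ J : UCon f, Nat.card (Quotient J.1) < Nat.card X → Good (UCon (qmap J))) :
    Good (UCon f) := by
  obtain ⟨N, J, hJ, hJN, h⟩ := h
  obtain ⟨x, y, hxy, hne⟩ := exists_pair_of_supIrred hJ
  exact good_step hJ hJN h ((ih J (quot_lt J hxy hne)).congr (corr J))

section comm

/-- the action of words -/
def act (f : ι → X → X) (l : List ι) (x : X) : X := l.foldr (fun i y => f i y) x

theorem reach_act {x y : X} (h : Reach f x y) : ∃ l, act f l x = y := by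
  induction h with
  | refl => exact ⟨[], rfl⟩
  | tail _ h2 ih =>
    obtain ⟨l, rfl⟩ := ih
    obtain ⟨i, rfl⟩ := h2
    exact ⟨i :: l, rfl⟩

theorem act_rel (U : UCon f) (l : List ι) {x y : X} (h : U.1 x y) :
    U.1 (act f l x) (act f l y) := by
  induction l with
  | nil => exact h
  | cons i l ih => exact U.2 i _ _ ih

theorem act_comm1 (hf : ∀ i j x, f i (f j x) = f j (f i x)) (i : ι) (l : List ι) (x : X) :
    act f l (f i x) = f i (act f l x) := by
  induction l with
  | nil => rfl
  | cons j l ih =>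
    change f j (act f l (f i x)) = f i (f j (act f l x))
    rw [ih, hf]

theorem act_comm (hf : ∀ i j x, f i (f j x) = f j (f i x)) (l l' : List ι) (x : X) :
    act f l (act f l' x) = act f l' (act f l x) := by
  induction l' with
  | nil => rfl
  | cons j l' ih =>
    change act f l (f j (act f l' x)) = f j (act f l' (act f l x))
    rw [act_comm1 hf, ih]

theorem exists_coatom [Finite X] [Nontrivial X] : ∃ N : UCon f, IsCoatom N := by
  have := nontrivial_ucon (f := f)
  obtain ⟨N, hN⟩ := IsCoatomic.exists_coatom (UCon f)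
  exact ⟨N, hN⟩

theorem crit_comm [Finite X] [Nontrivial X] (hf : ∀ i j x, f i (f j x) = f j (f i x)) :
    Crit (UCon f) := by
  by_cases hc : ∀ x y, Reach f x y
  · obtain ⟨N, hN⟩ := exists_coatom (f := f)
    refine crit_of_permute hN (fun J x y z h1 h2 => ?_)
    obtain ⟨l, hl⟩ := reach_act (hc z y)
    obtain ⟨k, hk⟩ := reach_act (hc z x)
    refine ⟨act f l x, ?_, ?_⟩
    · have h3 := act_rel J k h2
      rw [hk, ← hl, act_comm hf, hk] at h3
      exact h3
    · have h3 := act_rel N l h1
      rw [hl] at h3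
      exact h3
  · exact crit_of_not_connected hc

end comm

universe u v

theorem good_comm_aux (ι : Type v) : ∀ (n : ℕ) (X : Type u) [Finite X] (f : ι → X → X),
    (∀ i j x, f i (f j x) = f j (f i x)) → Nat.card X = n → Good (UCon f) := by
  intro n
  induction n using Nat.strong_induction_on with
  | _ n ih =>
    intro X _ f hf hn
    rcases subsingleton_or_nontrivial X with hX | hX
    · have := subsingleton_ucon (f := f)
      exact good_of_subsingleton
    · refine good_of_crit (crit_comm hf) (fun J hJ => ih _ (hn ▸ hJ) _ _ ?_ rfl)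
      intro i j p
      exact Quotient.inductionOn p (fun x => congrArg (Quotient.mk J.1) (hf i j x))

/-- commuting maps -/
theorem good_comm {X : Type u} {ι : Type v} [Finite X] (f : ι → X → X)
    (hf : ∀ i j x, f i (f j x) = f j (f i x)) : Good (UCon f) :=
  good_comm_aux ι _ X f hf rfl

section grp

variable {G : Type v} [Group G] {X : Type u} {f : G → X → X}

theorem crit_group [Finite X] [Nontrivial X] (h1 : ∀ x, f 1 x = x)
    (hm : ∀ g h x, f (g * h) x = f g (f h x)) {n : ℕ}
    (hn : ¬ ∀ x y, ∃ g ∈ derivedSeries G n, f g x = y) : Crit (UCon f) := by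
  classical
  -- the least such number
  have hex : ∃ n, ¬ ∀ x y, ∃ g ∈ derivedSeries G n, f g x = y := ⟨n, hn⟩
  let n₀ := Nat.find hex
  have hn₀ : ¬ ∀ x y, ∃ g ∈ derivedSeries G n₀, f g x = y := Nat.find_spec hex
  have hmin : ∀ m < n₀, ∀ x y, ∃ g ∈ derivedSeries G m, f g x = y := fun m hm =>
    not_not.1 (Nat.find_min hex hm)
  rcases hk : n₀ with _ | k
  · refine crit_of_not_connected (fun hc => hn₀ ?_)
    intro x y
    rw [hk, derivedSeries_zero]
    have h2 := hc x y
    induction h2 with
    | refl => exact ⟨1, Subgroup.mem_top _, h1 x⟩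
    | tail _ h3 ih =>
      obtain ⟨g, -, rfl⟩ := ih
      obtain ⟨i, rfl⟩ := h3
      exact ⟨i * g, Subgroup.mem_top _, hm _ _ _⟩
  · have htr : ∀ x y, ∃ g ∈ derivedSeries G k, f g x = y := hmin k (by omega)
    have hnt : ¬ ∀ x y, ∃ g ∈ derivedSeries G (k + 1), f g x = y := by rw [← hk]; exact hn₀
    have hinv : ∀ g x, f g⁻¹ (f g x) = x := fun g x => by rw [← hm, inv_mul_cancel, h1]
    -- the orbits of the next derived subgroup
    let κ : UCon f := UCon.mk ⟨fun x y => ∃ g ∈ derivedSeries G (k + 1), f g x = y,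
      fun x => ⟨1, one_mem _, h1 x⟩,
      fun {x y} ⟨g, hg, hxy⟩ => ⟨g⁻¹, inv_mem hg, by rw [← hxy, hinv]⟩,
      fun {x y z} ⟨g, hg, hxy⟩ ⟨g', hg', hyz⟩ => ⟨g' * g, mul_mem hg' hg, by
        rw [hm, hxy, hyz]⟩⟩ (fun i x y ⟨g, hg, hxy⟩ => ⟨i * g * i⁻¹,
          (inferInstance : (derivedSeries G (k + 1)).Normal).conj_mem g hg i, by
          rw [← hm, inv_mul_cancel_right, hm, hxy]⟩)
    have hκ : κ ≠ ⊤ := fun h => hnt (fun x y => by
      have h2 : κ.1 x y := by rw [h]; exact top_rel x y
      exact h2)
    obtain ⟨N, hN, hκN⟩ := (eq_top_or_exists_le_coatom κ).resolve_left hκ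
    refine crit_of_permute hN (fun J x y z hxz hzy => ?_)
    obtain ⟨g, hg, hgz⟩ := htr z y
    obtain ⟨a, ha, haz⟩ := htr z x
    -- `x = a z`, `y = g z`; apply `a` to `z ~ g z`
    have h2 : J.1 x (f a y) := by
      have := J.2 a z y hzy
      rw [haz] at this
      exact this
    refine ⟨f a y, h2, ?_⟩
    -- `f a y = a g z`, `g x = g a z`
    have h3 : N.1 (f g x) y := by
      have := N.2 g x z hxz
      rw [hgz] at this
      exact this
    refine N.1.trans (N.1.symm ?_) h3
    apply hκN
    refine ⟨a * g * a⁻¹ * g⁻¹, ?_, ?_⟩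
    · rw [derivedSeries_succ]
      exact Subgroup.commutator_mem_commutator ha hg
    · rw [← hgz, ← haz, ← hm, ← hm, ← hm]
      congr 1
      group

theorem good_solvable_aux (G : Type v) [Group G] [Group.IsSolvable G] :
    ∀ (n : ℕ) (X : Type u) [Finite X] (f : G → X → X), (∀ x, f 1 x = x) →
    (∀ g h x, f (g * h) x = f g (f h x)) → Nat.card X = n → Good (UCon f) := by
  intro n
  induction n using Nat.strong_induction_on with
  | _ n ih =>
    intro X _ f h1 hm hn
    rcases subsingleton_or_nontrivial X with hX | hX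
    · have := subsingleton_ucon (f := f)
      exact good_of_subsingleton
    · obtain ⟨k, hk⟩ := (Group.isSolvable_def G).1 inferInstance
      have hcrit : Crit (UCon f) := by
        refine crit_group h1 hm (n := k) (fun h => ?_)
        obtain ⟨x, y, hxy⟩ := exists_pair_ne X
        obtain ⟨g, hg, hgx⟩ := h x y
        rw [hk, Subgroup.mem_bot] at hg
        rw [hg, h1] at hgx
        exact hxy hgx
      refine good_of_crit hcrit (fun J hJ => ih _ (hn ▸ hJ) _ _ ?_ ?_ rfl)
      · intro p
        exact Quotient.inductionOn p (fun x => congrArg (Quotient.mk J.1) (h1 x))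
      · intro g h p
        exact Quotient.inductionOn p (fun x => congrArg (Quotient.mk J.1) (hm g h x))

/-- solvable groups of permutations -/
theorem good_solvable {G : Type v} [Group G] [Group.IsSolvable G] {X : Type u} [Finite X]
    (f : G → X → X) (h1 : ∀ x, f 1 x = x) (hm : ∀ g h x, f (g * h) x = f g (f h x)) :
    Good (UCon f) :=
  good_solvable_aux G _ X f h1 hm rfl

end grp

end Pool.Agent.H8K1.CL
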