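import Pool.Agent.H8K1.CL.Semi

/-!
# One-sided congruences of finite semigroups, finite algebras, intervals of subgroups
-/

set_option autoImplicit false

namespace Pool.Agent.H8K1.CL

open Pool.Agent.R636.FL

universe u v w

section onesided

variable {S : Type u} [Semigroup S]

/-- left translations -/
def ltr (S : Type u) [Semigroup S] : S → S → S := fun s x => s * x

theorem weak_left [Finite S] (hng : ¬ ∀ x y : S, (∃ s, x * s = y) ∧ ∃ s, s * x = y) :
    Weak (UCon (ltr S)) := by
  classical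
  by_cases hc : ∀ x y, Reach (ltr S) x y
  swap
  · exact (crit_of_not_connected hc).weak
  have hnt : Nontrivial S := by
    by_contra hno
    rw [not_nontrivial_iff_subsingleton] at hno
    exact hng (fun x y => ⟨⟨x, Subsingleton.elim _ _⟩, ⟨x, Subsingleton.elim _ _⟩⟩)
  have hl0 : ∀ x y : S, x ≠ y → ∃ s, s * x = y := by
    intro x y hxy
    have h1 : Reach (ltr S) x y := hc x y
    have h2 : ∀ y, Reach (ltr S) x y → y = x ∨ ∃ s, s * x = y := by
      intro y h
      induction h with
      | refl => exact Or.inl rfl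
      | tail _ h2 ih =>
        obtain ⟨i, rfl⟩ := h2
        rcases ih with rfl | ⟨s, rfl⟩
        · exact Or.inr ⟨i, rfl⟩
        · exact Or.inr ⟨i * s, mul_assoc _ _ _⟩
    exact (h2 y h1).resolve_left (fun h => hxy h.symm)
  have hl : ∀ x y : S, ∃ s, s * x = y := by
    intro x y
    by_cases hxy : x = y
    · obtain ⟨z, hz⟩ := exists_ne x
      obtain ⟨s, hs⟩ := hl0 x z hz.symm
      obtain ⟨t, ht⟩ := hl0 z x hz
      exact ⟨t * s, by rw [mul_assoc, hs, ht, hxy]⟩
    · exact hl0 x y hxy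
  have hns : ¬ ∀ x y : S, ∃ s, x * s = y := fun h => hng (fun x y => ⟨h x y, hl x y⟩)
  have hr : ∀ x s : S, ∃ t, x * s * t = x := right_return (fun x y => by
    obtain ⟨s, hs⟩ := hl x y
    exact Relation.ReflTransGen.single ⟨Sum.inl s, hs⟩)
  push Not at hns
  obtain ⟨a, b, hab⟩ := hns
  let R : S → Prop := fun u => ∃ s, a * s = u
  have hR1 : ∀ u s, R (u * s) ↔ R u := by
    intro u s
    constructor
    · rintro ⟨t, ht⟩
      obtain ⟨t', ht'⟩ := hr u s
      exact ⟨t * t', by rw [← mul_assoc, ht, ht']⟩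
    · rintro ⟨t, ht⟩
      exact ⟨t * s, by rw [← mul_assoc, ht]⟩
  have hid : ∀ c : S, ∃ e t, e = c * t ∧ e * c = c ∧ ∀ s, s * e = s := by
    intro c
    obtain ⟨s, hs⟩ := hl c c
    obtain ⟨t, ht⟩ := hr s c
    rw [hs] at ht
    have hee : s * s = s := by
      calc s * s = s * (c * t) := by rw [ht]
        _ = (s * c) * t := (mul_assoc _ _ _).symm
        _ = s := by rw [hs, ht]
    refine ⟨s, t, ht.symm, hs, fun x => ?_⟩
    obtain ⟨y, rfl⟩ := hl s x
    rw [mul_assoc, hee]
  obtain ⟨e, t, he1, he2, he3⟩ := hid a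
  obtain ⟨e', t', he1', he2', he3'⟩ := hid b
  have hRe : R e := ⟨t, he1.symm⟩
  have hRe' : ¬ R e' := fun h => by
    have : R b := by rw [← he2', hR1]; exact h
    obtain ⟨s, hs⟩ := this
    exact hab s hs
  have hne : e ≠ e' := fun h => hRe' (h ▸ hRe)
  let J : UCon (ltr S) := UCon.mk ⟨fun u v => u = v ∨ ((u = e ∨ u = e') ∧ (v = e ∨ v = e')),
    fun _ => Or.inl rfl, fun h => h.elim (fun h => Or.inl h.symm) (fun h => Or.inr h.symm),
    fun {x y z} h1 h2 => by
      rcases h1 with rfl | h1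
      · exact h2
      · rcases h2 with rfl | h2
        · exact Or.inr h1
        · exact Or.inr ⟨h1.1, h2.2⟩⟩ (fun s x y h => by
      rcases h with rfl | h
      · exact Or.inl rfl
      · left
        change s * x = s * y
        have h1 : ∀ z, z = e ∨ z = e' → s * z = s := by
          rintro z (rfl | rfl)
          · exact he3 s
          · exact he3' s
        rw [h1 x h.1, h1 y h.2])
  have hJee : J.1 e e' := Or.inr ⟨Or.inl rfl, Or.inr rfl⟩
  have hJle : ∀ U : UCon (ltr S), U.1 e e' → J ≤ U := by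
    intro U hU x y h
    rcases h with rfl | ⟨h1, h2⟩
    · exact U.1.refl _
    · rcases h1 with rfl | rfl <;> rcases h2 with rfl | rfl
      · exact U.1.refl _
      · exact hU
      · exact U.1.symm hU
      · exact U.1.refl _
  have hJbot : ∀ U : UCon (ltr S), U ≤ J → U = J ∨ U = ⊥ := by
    intro U hU
    by_cases h : U.1 e e'
    · exact Or.inl (le_antisymm hU (hJle U h))
    · right
      refine le_bot_iff.1 (fun x y hxy => ?_)
      rcases hU hxy with rfl | ⟨h1, h2⟩
      · exact (⊥ : UCon (ltr S)).1.refl _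
      · rcases h1 with rfl | rfl <;> rcases h2 with rfl | rfl
        · exact (⊥ : UCon (ltr S)).1.refl _
        · exact absurd hxy h
        · exact absurd (U.1.symm hxy) h
        · exact (⊥ : UCon (ltr S)).1.refl _
  have hJne : J ≠ ⊥ := fun h => hne (bot_rel (f := ltr S) (by rw [← h]; exact hJee))
  have hJ : SupIrred J := by
    refine ⟨fun h => hJne (le_bot_iff.1 (h bot_le)), fun b c hbc => ?_⟩
    rcases hJbot b (by rw [← hbc]; exact le_sup_left) with h1 | h1
    · exact Or.inl h1
    · right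
      rw [h1, bot_sup_eq] at hbc
      exact hbc
  refine ⟨J, hJ, ?_⟩
  let φ : UCon (ltr S) → UCon (ltr S) := fun U => UCon.mk
    ⟨fun u v => U.1 u v ∧ (U.1 u e → (R u ↔ R v)), fun u => ⟨U.1.refl _, fun _ => Iff.rfl⟩,
      fun {u v} h => ⟨U.1.symm h.1, fun h1 => (h.2 (U.1.trans h.1 h1)).symm⟩,
      fun {u v w} h1 h2 => ⟨U.1.trans h1.1 h2.1, fun h3 => (h1.2 h3).trans
        (h2.2 (U.1.trans (U.1.symm h1.1) h3))⟩⟩
    (fun s u v h => ⟨U.2 s u v h.1, fun _ => by
      change R (s * u) ↔ R (s * v)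
      rw [hR1, hR1]⟩)
  have hφ : ∀ U : UCon (ltr S), ¬ J ≤ φ U := fun U h => by
    have h1 : (φ U).1 e e' := h hJee
    exact hRe' ((h1.2 (U.1.refl _)).1 hRe)
  have hφi : ∀ U V : UCon (ltr S), J ≤ U → J ≤ V → φ U = φ V → U ≤ V := by
    intro U V hU hV h u v huv
    have h1 : ∀ x y, (φ U).1 x y → V.1 x y := fun x y h2 => by
      rw [h] at h2
      exact h2.1
    by_cases hue : U.1 u e
    · -- everything related to `e` by `U` is related to `e` by `V`
      have h2 : ∀ x, U.1 x e → V.1 x e := by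
        intro x hx
        by_cases hRx : R x
        · exact h1 x e ⟨hx, fun _ => ⟨fun _ => hRe, fun _ => hRx⟩⟩
        · have h3 : V.1 x e' := h1 x e' ⟨U.1.trans hx (hU hJee), fun _ =>
            ⟨fun h => absurd h hRx, fun h => absurd h hRe'⟩⟩
          exact V.1.trans h3 (V.1.symm (hV hJee))
      exact V.1.trans (h2 u hue) (V.1.symm (h2 v (U.1.trans (U.1.symm huv) hue)))
    · exact h1 u v ⟨huv, fun h3 => absurd h3 hue⟩
  have h1 : Nat.card {U : UCon (ltr S) // J ≤ U} ≤ Nat.card {U : UCon (ltr S) // ¬ J ≤ U} := by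
    refine Nat.card_le_card_of_injective (fun U => ⟨φ U.1, hφ U.1⟩) ?_
    intro U V hUV
    have h3 := congrArg Subtype.val hUV
    simp only at h3
    exact Subtype.ext (le_antisymm (hφi _ _ U.2 V.2 h3) (hφi _ _ V.2 U.2 h3.symm))
  have h2 : Nat.card {U : UCon (ltr S) // J ≤ U} + Nat.card {U : UCon (ltr S) // ¬ J ≤ U} =
      Nat.card (UCon (ltr S)) := by
    rw [← Nat.card_sum]
    exact Nat.card_congr (Equiv.sumCompl _)
  omega

end onesided

end Pool.Agent.H8K1.CL
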