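import Pool.Agent.H8K1.CL.Classes

/-!
# Congruence lattices of finite semigroups
-/

set_option autoImplicit false

namespace Pool.Agent.H8K1.CL

open Pool.Agent.R636.FL

universe u

section semi

variable {S : Type u} [Semigroup S]

/-- the translations -/
def tr (S : Type u) [Semigroup S] : S ⊕ S → S → S := Sum.elim (fun s x => s * x) (fun s x => x * s)

/-- congruences are the equivalence relations compatible with the translations -/
def conIso (S : Type u) [Semigroup S] : UCon (tr S) ≃o Con S where
  toFun r := ⟨r.1, fun {w x y z} h1 h2 => r.1.trans (r.2 (Sum.inr y) w x h1)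
    (r.2 (Sum.inl x) y z h2)⟩
  invFun c := UCon.mk c.toSetoid (fun i x y h => by
    rcases i with s | s
    · exact c.mul (c.refl s) h
    · exact c.mul h (c.refl s))
  left_inv r := rfl
  right_inv c := rfl
  map_rel_iff' := Iff.rfl

/-- the key property of simple finite semigroups -/
theorem right_return [Finite S] (hc : ∀ x y, Reach (tr S) x y) (x s : S) : ∃ t, x * s * t = x := by
  -- `x = p x (s q)` with `p`, `q` in the monoid
  have h1 : ∀ y z, Reach (tr S) y z → ∃ p q : WithOne S, (z : WithOne S) = p * (y : WithOne S) * q := by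
    intro y z h
    induction h with
    | refl => exact ⟨1, 1, by simp⟩
    | tail _ h2 ih =>
      obtain ⟨p, q, h3⟩ := ih
      obtain ⟨i, rfl⟩ := h2
      rcases i with s | s
      · refine ⟨s * p, q, ?_⟩
        change ((s * _ : S) : WithOne S) = _
        rw [WithOne.coe_mul, h3]
        simp only [mul_assoc]
      · refine ⟨p, q * s, ?_⟩
        change ((_ * s : S) : WithOne S) = _
        rw [WithOne.coe_mul, h3]
        simp only [mul_assoc]
  obtain ⟨p, q, h2⟩ := h1 _ _ (hc (x * s) x)
  rw [WithOne.coe_mul] at h2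
  set X : WithOne S := (x : WithOne S) with hX
  set w : WithOne S := (s : WithOne S) * q with hw
  have h3 : ∀ n : ℕ, X = p ^ n * X * w ^ n := by
    intro n
    induction n with
    | zero => rw [pow_zero, pow_zero, one_mul, mul_one]
    | succ n ih =>
      have h4 : X = p * X * w := by
        rw [hw]
        calc X = p * (X * ↑s) * q := h2
          _ = p * X * (↑s * q) := by simp only [mul_assoc]
      calc X = p ^ n * X * w ^ n := ih
        _ = p ^ n * (p * X * w) * w ^ n := by rw [← h4]
        _ = p ^ (n + 1) * X * w ^ (n + 1) := by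
          rw [pow_succ p, pow_succ' w]; simp only [mul_assoc]
  -- an idempotent power of `w`
  have hfin : Finite (WithOne S) := by
    change Finite (Option S)
    infer_instance
  obtain ⟨n, hn, hid⟩ : ∃ n : ℕ, 0 < n ∧ IsIdempotentElem (w ^ n) := by
    obtain ⟨a, b, hab, h5⟩ := Finite.exists_ne_map_eq_of_infinite (fun n : ℕ => w ^ n)
    wlog hlt : a < b generalizing a b
    · exact this b a hab.symm h5.symm (by omega)
    obtain ⟨d, hd, rfl⟩ : ∃ d, 0 < d ∧ b = a + d := ⟨b - a, by omega, by omega⟩
    replace h5 : w ^ a = w ^ (a + d) := h5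
    have h6 : ∀ m, a ≤ m → w ^ (m + d) = w ^ m := by
      intro m hm
      obtain ⟨e, rfl⟩ := Nat.exists_eq_add_of_le hm
      rw [show a + e + d = (a + d) + e by ring, pow_add w (a + d), ← h5, ← pow_add]
    have h7 : ∀ k m, a ≤ m → w ^ (m + k * d) = w ^ m := by
      intro k
      induction k with
      | zero => intro m _; simp
      | succ k ih =>
        intro m hm
        rw [show m + (k + 1) * d = (m + k * d) + d by ring, h6 _ (by omega), ih m hm]
    refine ⟨(a + 1) * d, by positivity, ?_⟩
    change w ^ ((a + 1) * d) * w ^ ((a + 1) * d) = w ^ ((a + 1) * d)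
    rw [← pow_add]
    exact h7 (a + 1) ((a + 1) * d) (by nlinarith)
  have h8 : X * w ^ n = X := by
    calc X * w ^ n = p ^ n * X * w ^ n * w ^ n := by rw [← h3 n]
      _ = p ^ n * X * (w ^ n * w ^ n) := by simp only [mul_assoc]
      _ = p ^ n * X * w ^ n := by rw [hid]
      _ = X := (h3 n).symm
  -- `x = x s t`, where `t = q w ^ (n - 1)`, or `t = s q ...` if this is `1`
  obtain ⟨m, rfl⟩ : ∃ m, n = m + 1 := ⟨n - 1, by omega⟩
  have h9 : X * (s : WithOne S) * (q * w ^ m) = X := by
    calc X * (s : WithOne S) * (q * w ^ m) = X * (((s : WithOne S) * q) * w ^ m) := by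
          simp only [mul_assoc]
      _ = X * w ^ (m + 1) := by rw [pow_succ', hw]
      _ = X := h8
  rcases hq : q * w ^ m with _ | t
  · refine ⟨s, ?_⟩
    have h10 : X * (s : WithOne S) = X := by
      have : q * w ^ m = 1 := hq
      rw [this, mul_one] at h9
      exact h9
    have h11 : x * s = x := WithOne.coe_injective (by rw [WithOne.coe_mul]; exact h10)
    rw [h11, h11]
  · refine ⟨t, ?_⟩
    have : q * w ^ m = (t : WithOne S) := hq
    rw [this] at h9
    exact WithOne.coe_injective (by rw [WithOne.coe_mul, WithOne.coe_mul]; exact h9)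

/-- the case of at least two minimal right ideals -/
theorem crit_right [Finite S] (hr : ∀ x s : S, ∃ t, x * s * t = x)
    (hns : ¬ ∀ x y : S, ∃ s, x * s = y) : Crit (UCon (tr S)) := by
  classical
  push Not at hns
  obtain ⟨a, b, hab⟩ := hns
  let R : S → Prop := fun u => ∃ s, a * s = u
  have haR : R a := by
    obtain ⟨t, ht⟩ := hr a a
    exact ⟨a * t, by rw [← mul_assoc]; exact ht⟩
  have hbR : ¬ R b := fun ⟨s, hs⟩ => hab s hs
  have hR1 : ∀ u s, R (u * s) ↔ R u := by
    intro u s
    constructor
    · rintro ⟨t, ht⟩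
      obtain ⟨t', ht'⟩ := hr u s
      exact ⟨t * t', by rw [← mul_assoc, ht, ht']⟩
    · rintro ⟨t, ht⟩
      exact ⟨t * s, by rw [← mul_assoc, ht]⟩
  let m : UCon (tr S) := UCon.mk ⟨fun x y => (R x ↔ R y), fun _ => Iff.rfl, fun h => h.symm,
    fun h1 h2 => h1.trans h2⟩ (fun i x y h => by
      rcases i with s | s
      · change R (s * x) ↔ R (s * y)
        rw [hR1, hR1]
      · change R (x * s) ↔ R (y * s)
        rw [hR1, hR1]
        exact h)
  obtain ⟨J, hJ, u, v, huv, hm⟩ := exists_supIrred_not_in (f := tr S) m.1 (x := a) (y := b)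
    (fun h => hbR (h.1 haR))
  obtain ⟨u, v, huv, hu, hv⟩ : ∃ u v, J.1 u v ∧ R u ∧ ¬ R v := by
    by_cases hu : R u
    · exact ⟨u, v, huv, hu, fun hv => hm ⟨fun _ => hv, fun _ => hu⟩⟩
    · by_cases hv : R v
      · exact ⟨v, u, J.1.symm huv, hv, hu⟩
      · exact absurd ⟨fun h => absurd h hu, fun h => absurd h hv⟩ hm
  have key : ∀ x, ∃ x', J.1 x x' ∧ ¬ R x' := by
    intro x
    by_cases hx : R x
    · obtain ⟨s, rfl⟩ := hu
      obtain ⟨t, rfl⟩ := hx
      obtain ⟨r, hr'⟩ := hr a s
      -- `a t = (a s) (r t)`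
      refine ⟨v * (r * t), ?_, ?_⟩
      · have h1 := J.2 (Sum.inr (r * t)) _ _ huv
        change J.1 (a * s * (r * t)) (v * (r * t)) at h1
        rw [← mul_assoc, hr'] at h1
        exact h1
      · rw [hR1]; exact hv
    · exact ⟨x, J.1.refl _, hx⟩
  refine ⟨m, J, hJ, fun h => hv ((h huv).1 hu), fun U hU => recover hU (fun x y _ => ?_)⟩
  obtain ⟨x', h1, h2⟩ := key x
  obtain ⟨y', h3, h4⟩ := key y
  exact ⟨x', y', h1, h3, ⟨fun h => absurd h h2, fun h => absurd h h4⟩⟩

end semi

section grp

variable {G : Type u} [Group G]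

theorem crit_of_group [Finite G] [Nontrivial G] : Crit (UCon (tr G)) := by
  obtain ⟨N, hN⟩ := exists_coatom (f := tr G)
  refine crit_of_permute hN (fun J x y z hxz hzy => ⟨y * z⁻¹ * x, ?_, ?_⟩)
  · have h1 := J.2 (Sum.inr (z⁻¹ * x)) _ _ hzy
    change J.1 (z * (z⁻¹ * x)) (y * (z⁻¹ * x)) at h1
    rw [mul_inv_cancel_left, ← mul_assoc] at h1
    exact h1
  · have h1 := N.2 (Sum.inl (y * z⁻¹)) _ _ hxz
    change N.1 (y * z⁻¹ * x) (y * z⁻¹ * z) at h1
    rw [inv_mul_cancel_right] at h1
    exact h1

end grp

section main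

theorem crit_of_divisible (S : Type u) [Semigroup S] [Finite S] [Nontrivial S]
    (h1 : ∀ x y : S, ∃ s, x * s = y) (h2 : ∀ x y : S, ∃ s, s * x = y) : Crit (UCon (tr S)) := by
  obtain ⟨a⟩ : Nonempty S := inferInstance
  obtain ⟨e, he⟩ := h2 a a
  have hone : ∀ b : S, e * b = b := by
    intro b
    obtain ⟨s, rfl⟩ := h1 a b
    rw [← mul_assoc, he]
  choose inv hinv using fun b : S => h2 b e
  let _ : One S := ⟨e⟩
  let _ : Inv S := ⟨inv⟩
  let _ : Group S := Group.ofLeftAxioms mul_assoc hone hinv
  exact crit_of_group (G := S)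

theorem reach_op {S : Type u} [Semigroup S] {x y : S} (h : Reach (tr S) x y) :
    Reach (tr Sᵐᵒᵖ) (MulOpposite.op x) (MulOpposite.op y) := by
  induction h with
  | refl => exact Relation.ReflTransGen.refl
  | tail _ h2 ih =>
    obtain ⟨i, rfl⟩ := h2
    refine Relation.ReflTransGen.tail ih ?_
    rcases i with s | s
    · exact ⟨Sum.inr (MulOpposite.op s), rfl⟩
    · exact ⟨Sum.inl (MulOpposite.op s), rfl⟩

theorem crit_semigroup (S : Type u) [Semigroup S] [Finite S] [Nontrivial S] : Crit (Con S) := by
  by_cases hc : ∀ x y, Reach (tr S) x y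
  · have hfin : Finite Sᵐᵒᵖ := Finite.of_equiv _ MulOpposite.opEquiv
    by_cases h1 : ∀ x y : S, ∃ s, x * s = y
    · by_cases h2 : ∀ x y : S, ∃ s, s * x = y
      · exact (crit_of_divisible S h1 h2).congr (conIso S)
      · have hc' : ∀ x y, Reach (tr Sᵐᵒᵖ) x y := fun x y => by
          have := reach_op (hc x.unop y.unop)
          exact this
        have h3 : Crit (UCon (tr Sᵐᵒᵖ)) := crit_right (right_return hc') (fun h => h2 (fun x y => by
          obtain ⟨s, hs⟩ := h (MulOpposite.op x) (MulOpposite.op y)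
          exact ⟨s.unop, MulOpposite.op_injective (by rw [← hs]; rfl)⟩))
        exact (h3.congr (conIso Sᵐᵒᵖ)).congr Con.orderIsoOp.symm
    · exact (crit_right (right_return hc) h1).congr (conIso S)
  · exact (crit_of_not_connected hc).congr (conIso S)

instance con_finite (S : Type u) [Semigroup S] [Finite S] : Finite (Con S) :=
  Finite.of_equiv _ (conIso S).toEquiv

theorem good_semigroup_aux : ∀ (n : ℕ) (S : Type u) [Semigroup S] [Finite S],
    Nat.card S = n → Good (Con S) := by
  intro n
  induction n using Nat.strong_induction_on with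
  | _ n ih =>
    intro S _ _ hn
    rcases subsingleton_or_nontrivial S with hX | hX
    · have h1 := subsingleton_ucon (f := tr S)
      have : Subsingleton (Con S) := (conIso S).symm.toEquiv.subsingleton
      exact good_of_subsingleton
    · obtain ⟨N, J, hJ, hJN, h⟩ := crit_semigroup S
      have h1 : SupIrred ((conIso S).symm J) := supIrred_map (conIso S).symm hJ
      obtain ⟨x, y, hxy, hne⟩ := exists_pair_of_supIrred h1
      have h2 := quot_lt _ hxy hne
      have h3 : Nat.card J.Quotient < n := by rw [← hn]; exact h2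
      have h4 : Finite J.Quotient := Quotient.finite _
      have h5 : Good (Con J.Quotient) := ih _ h3 J.Quotient rfl
      exact good_step hJ hJN h (h5.congr Con.correspondence.symm)

/-- all finite semigroups -/
theorem good_semigroup (S : Type u) [Semigroup S] [Finite S] : Good (Con S) :=
  good_semigroup_aux _ S rfl

end main

end Pool.Agent.H8K1.CL
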